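import Pool.Agent.H42.DF.W6

/-!
# MP_b924dd_an: dimension-free quasisymmetry of metric quasiconformal homeomorphisms, and Q1, Q2 for the
homeomorphisms of Hilbert space approximable on finite sets by finite-dimensional ones
-/

set_option autoImplicit false

open MeasureTheory Set Metric Filter H42DF
open scoped ENNReal Topology NNReal

namespace Pool.Agent.Results.MP_b924dd_an.MetricLimits

/-- For every `K` there is a homeomorphism `η` of `[0,∞)` such that in every real inner product space
`H` of dimension at least `2` (finite or infinite) every homeomorphism `f` of `H` onto `H` which is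
`K`-quasiconformal (metric definition) and either `H` is finite-dimensional or `f` maps a chain of
finite-dimensional subspaces with dense union onto finite-dimensional subspaces, or which is
approximable on finite sets by `K`-quasiconformal homeomorphisms of finite-dimensional subspaces, is
`η`-quasisymmetric and maps balls to quasiballs. -/
theorem result (K : ℝ) : ∃ η : ℝ≥0 ≃ₜ ℝ≥0,
    ∀ (H : Type) [NormedAddCommGroup H] [InnerProductSpace ℝ H], 1 < Module.rank ℝ H →
      ∀ f : H ≃ₜ H, ((IsKQC K f ∧ (FiniteDimensional ℝ H ∨ MapsChain f)) ∨ FinApprox K f) →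
        IsQS η f ∧
        ∀ (x : H) (r : ℝ), 0 < r → ∃ (y : H) (s : ℝ), 0 < s ∧ ball y s ⊆ f '' ball x r ∧
          f '' ball x r ⊆ ball y ((η 1 + 1) * s) := by
  obtain ⟨η, hη⟩ := qs_iso K
  refine ⟨η, ?_⟩
  intro H _ _ hr f hf
  have hf' : FinApprox K f := by
    rcases hf with ⟨h1, h2 | h2⟩ | h
    · exact finApprox_of_mapsChain f h1 (mapsChain_of_finiteDimensional f)
    · exact finApprox_of_mapsChain f h1 h2
    · exact h
  have h1 := qs_hilbert hη H hr f hf'
  have hnt : Nontrivial H := by
    rw [← rank_pos_iff_nontrivial (R := ℝ)]
    exact lt_trans zero_lt_one hr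
  exact ⟨h1, quasiball_of_isQS f h1⟩

end Pool.Agent.Results.MP_b924dd_an.MetricLimits
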