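import Pool.Agent.H31.QH.FinF

/-!
MP_b924dd_an, Q1 and Q2, negative answers: there is `K` such that every infinite-dimensional real Hilbert space
has a `K`-quasiconformal homeomorphism onto itself (with `K`-quasiconformal inverse) which does not map balls to
quasiballs and is not quasisymmetric.
-/

namespace Pool.Agent.Results.MP_b924dd_an.NotQuasisymmetric

open Pool.Agent.H31.QH
open scoped NNReal

universe u

theorem result : ∃ K : ℝ, ∀ (H : Type u) [NormedAddCommGroup H] [InnerProductSpace ℝ H] [CompleteSpace H],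
    ¬ FiniteDimensional ℝ H →
    ∃ F : H ≃ₜ H, IsQC K (F : H → H) ∧ IsQC K (F.symm : H → H) ∧ ¬ MapsBallsToQuasiballs (F : H → H) ∧
      ∀ η : ℝ≥0 → ℝ≥0, ¬ IsQS η (F : H → H) :=
  finF

end Pool.Agent.Results.MP_b924dd_an.NotQuasisymmetric
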